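import Pool.Agent.Helper93.KS.St

/-!
# Project KS, module AB: densities of dimension two
-/

set_option autoImplicit false

noncomputable section

namespace Pool.Agent.Helper53.KS

open Finset Filter Topology Pool.Agent.Helper93.KS
open Pool.Agent.Helper15.AB (ee Kl StDB StMT)
open Pool.Agent.Helper9.TW (gm Qs fm StMER StC9)
open Pool.Agent.Helper18.TR (StLevel)
open Pool.Agent.Helper93.KP (gk vk tk rn gn TK qk StC8P StVLP StRTS StWEI)

theorem hAB (hM : Pool.Agent.Helper60.GP.StM2) (hR : StRTS) : StAB := by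
  intro ω η i hω hi hη
  have hi1 : (1 : ℝ) ≤ (i : ℝ) := by exact_mod_cast hi
  have ha : 0 < (i : ℝ) * ω := mul_pos (by linarith) hω
  have hab : (i : ℝ) * ω ≤ ((i : ℝ) + 1) * ω := by nlinarith
  obtain ⟨z₀, hz₀⟩ := hM _ _ ha hab (η / 2) (half_pos hη)
  have h7 : ∀ᶠ n : ℕ in atTop, (7 : ℝ) ≤ (n : ℝ) ^ ((i : ℝ) * ω) :=
    ((tendsto_rpow_atTop ha).comp tendsto_natCast_atTop_atTop).eventually_ge_atTop 7
  have hz : ∀ᶠ n : ℕ in atTop, z₀ ≤ (n : ℝ) :=
    tendsto_natCast_atTop_atTop.eventually_ge_atTop z₀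
  filter_upwards [h7, hz] with n h7 hz
  have h := hz₀ n hz
  have hlog : Real.log (((i : ℝ) + 1) * ω / ((i : ℝ) * ω)) = gm i := by
    unfold gm
    rw [mul_div_mul_right _ _ hω.ne']
  rw [hlog] at h
  have h1 := (abs_le.1 h).2
  have h2 : Gb n ω (gn n) i ≤ ∑ p ∈ (range ⌈(n : ℝ) ^ (((i : ℝ) + 1) * ω)⌉₊).filter
      (fun p : ℕ => p.Prime ∧ (n : ℝ) ^ ((i : ℝ) * ω) ≤ p), 2 * ((1 : ℝ) / p) := by
    unfold Gb bq
    refine sum_le_sum fun p hp => ?_
    obtain ⟨_, hp1, hp2⟩ := mem_filter.1 hp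
    have hp7 : 7 ≤ p := by
      have : (7 : ℝ) ≤ (p : ℝ) := h7.trans hp2
      exact_mod_cast this
    have hr : ((rn n p : ℕ) : ℝ) ≤ 2 := by exact_mod_cast hR n p hp1 hp7
    have hp0 : (0 : ℝ) < p := by exact_mod_cast hp1.pos
    unfold gn
    rw [mul_one_div]
    exact div_le_div_of_nonneg_right hr hp0.le
  rw [← mul_sum] at h2
  linarith

end Pool.Agent.Helper53.KS
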