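import Pool.Agent.Helper93.KS.St3

/-!
# Project KS, module EXC: at most a bounded number of exceptional `n` in `(N, 2 N]`
-/

set_option autoImplicit false

noncomputable section

namespace Pool.Agent.Helper53.KS

open Finset Filter Topology Pool.Agent.Helper93.KS
open Pool.Agent.Helper15.AB (StMT)
open Pool.Agent.Helper18.TR (StBonf StFLmain StLevel)
open Pool.Agent.Helper9.TW (gm Qs fm)
open Pool.Agent.Helper93.KP (gk vk tk rn gn TK qk StRTS)

/-- The boxes with density one. -/
private def Jb (u j0 : ℕ) : Finset ℕ :=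
  Ico j0 (19 * u) ∪ (Ico (21 * u) (29 * u) ∪ Ico (41 * u) (59 * u))

private theorem gn_nonneg (n p : ℕ) : 0 ≤ gn n p := by
  unfold gn
  positivity

/-- **EXC.** -/
theorem hEXC (hD : StDYC) (h1 : StEX1) (hA : StAB) : StEXC := by
  classical
  intro u j0 η hj0 hju hη
  have hu3 : 3 ≤ u := by omega
  have hu0 : (0 : ℝ) < u := by exact_mod_cast (show 0 < u by omega)
  have hω0 : (0 : ℝ) < 1 / (100 * u) := by positivity
  have hJb : ∀ i ∈ Jb u j0, 50 ≤ i := by
    intro i hi
    unfold Jb at hi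
    simp only [mem_union, mem_Ico] at hi
    omega
  have hex : ∀ i : ℕ, ∃ C : ℕ, i ∈ Jb u j0 → ∀ᶠ N : ℕ in atTop,
      ((Ioc N (2 * N)).filter
        (fun n => η / 2 ≤ |∑ p ∈ bq N (1 / (100 * u)) i, sx n p / p|)).card ≤ C := by
    intro i
    by_cases hi : i ∈ Jb u j0
    · obtain ⟨C, hC⟩ := hD u i (η / 2) (by omega) (by have := hJb i hi; omega) (by linarith)
      refine ⟨C, fun _ => ?_⟩
      filter_upwards [hC] with N hN
      convert hN using 2
    · exact ⟨0, fun h => absurd h hi⟩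
  choose C hC using hex
  have hone : ∀ᶠ N : ℕ in atTop, ∀ i ∈ Jb u j0, ((Ioc N (2 * N)).filter
      (fun n => η / 2 ≤ |∑ p ∈ bq N (1 / (100 * u)) i, sx n p / p|)).card ≤ C i := by
    rw [Filter.eventually_all_finset]
    intro i hi
    exact hC i hi
  have hE1 : ∀ᶠ N : ℕ in atTop, ∀ i ∈ Jb u j0, ∀ n ∈ Ioc N (2 * N),
      Gb n (1 / (100 * u)) (gn n) i ≤ gm i + η / 2 +
        |∑ p ∈ bq N (1 / (100 * u)) i, sx n p / p| := by
    rw [Filter.eventually_all_finset]
    intro i hi
    filter_upwards [h1 u i (η / 2) (by omega) (hJb i hi) (by linarith)] with N hN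
    exact hN.2
  have hAB : ∀ᶠ n : ℕ in atTop, ∀ i ∈ Ico (19 * u) (78 * u),
      Gb n (1 / (100 * u)) (gn n) i ≤ 2 * gm i + η := by
    rw [Filter.eventually_all_finset]
    intro i hi
    have := mem_Ico.1 hi
    exact hA _ η i hω0 (by omega) hη
  obtain ⟨n₀, hn₀⟩ := eventually_atTop.1 hAB
  refine ⟨∑ i ∈ Jb u j0, C i, ?_⟩
  filter_upwards [hone, hE1, eventually_ge_atTop n₀] with N g1 g2 g3
  have hsub : (Ioc N (2 * N)).filter (fun n => ¬ GD 1 19 78 kf1 u j0 η n) ⊆
      (Jb u j0).biUnion (fun i => (Ioc N (2 * N)).filter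
        (fun n => η / 2 ≤ |∑ p ∈ bq N (1 / (100 * u)) i, sx n p / p|)) := by
    intro n hn
    obtain ⟨hnI, hnG⟩ := mem_filter.1 hn
    rw [mem_biUnion]
    by_contra hcon
    apply hnG
    have hgood : ∀ i ∈ Jb u j0, Gb n (1 / (100 * u)) (gn n) i ≤ gm i + η := by
      intro i hi
      have h2 : ¬ (η / 2 ≤ |∑ p ∈ bq N (1 / (100 * u)) i, sx n p / p|) := by
        intro h3
        exact hcon ⟨i, hi, mem_filter.2 ⟨hnI, h3⟩⟩
      have h4 := g2 i hi n hnI
      push Not at h2
      linarith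
    have hnn : n₀ ≤ n := by
      have := mem_Ioc.1 hnI
      omega
    refine ⟨⟨gn_nonneg n, fun i hi => ?_⟩, fun j hj => ?_⟩
    · have h5 := hgood i (by unfold Jb; exact mem_union_left _ hi)
      rw [Nat.cast_one, one_mul]
      exact h5
    · have hj' := mem_Ico.1 hj
      unfold kf1
      split_ifs with hc
      · rw [Nat.cast_one, one_mul]
        apply hgood
        unfold Jb
        simp only [mem_union, mem_Ico]
        omega
      · exact_mod_cast hn₀ n hnn j hj
  have h2 := (card_le_card hsub).trans card_biUnion_le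
  refine le_trans ?_ (h2.trans (sum_le_sum g1))
  exact card_le_card (fun n hn => by
    obtain ⟨a, b⟩ := mem_filter.1 hn
    exact mem_filter.2 ⟨a, b⟩)

end Pool.Agent.Helper53.KS
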